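import Pool.Agent.Helper27.RV.StL

/-!
# Project RV, module LAM
-/

set_option autoImplicit false

open Cardinal Ordinal Set Filter

universe u

namespace Pool.Agent.Helper4.RV

open Pool.Agent.Helper27.RV Pool.Agent.Helper65.GS Pool.Agent.Helper36.VC

theorem code_exists (κ : Cardinal.{u}) (hp : ∀ a < κ, (2 : Cardinal.{u}) ^ a ≤ κ)
    (b : Ordinal.{u}) :
    ∃ code : Set κ.ord.ToType → Ordinal.{u}, (κ ≠ 0 → ∀ Y, code Y < κ.ord) ∧
      (b < κ.ord → ∀ Y Y', code Y = code Y' →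
        ∀ a : κ.ord.ToType, ((a.toOrd : Ordinal.{u}) < b) → (a ∈ Y ↔ a ∈ Y')) := by
  classical
  by_cases hb : b < κ.ord
  · let S : Type u := {a : κ.ord.ToType // (a.toOrd : Ordinal.{u}) < b}
    have hS : #S < κ := by
      have h1 : #S ≤ #b.ToType := by
        refine Cardinal.mk_le_of_injective (f := fun a : S => ToType.mk ⟨(a.1.toOrd : Ordinal.{u}), a.2⟩) ?_
        intro a a' haa
        have h2 := ToType.mk.injective haa
        have h3 : (a.1.toOrd : Ordinal.{u}) = a'.1.toOrd := by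
          simpa using h2
        exact Subtype.ext (ToType.mk.symm.injective (Subtype.ext h3))
      refine h1.trans_lt ?_
      rw [mk_toType]
      exact Cardinal.lt_ord.1 hb
    have h2 : #(Set S) ≤ #κ.ord.ToType := by
      rw [Cardinal.mk_set, mk_toType, card_ord]
      exact hp _ hS
    rw [Cardinal.le_def] at h2
    obtain ⟨g⟩ := h2
    refine ⟨fun Y => ((g {a : S | a.1 ∈ Y}).toOrd : Ordinal.{u}), fun _ Y => (g _).toOrd.2, ?_⟩
    intro _ Y Y' hYY a ha
    have h3 : g {a : S | a.1 ∈ Y} = g {a : S | a.1 ∈ Y'} :=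
      ToType.mk.symm.injective (Subtype.ext hYY)
    have h4 := g.injective h3
    have h5 : (⟨a, ha⟩ : S) ∈ {a : S | a.1 ∈ Y} ↔ (⟨a, ha⟩ : S) ∈ {a : S | a.1 ∈ Y'} := by
      rw [h4]
    exact h5
  · refine ⟨fun _ => 0, fun h0 _ => ?_, fun h => absurd h hb⟩
    rw [← Cardinal.ord_zero]
    exact Cardinal.ord_lt_ord.2 (pos_iff_ne_zero.2 h0)

theorem pLAM : StLAM.{u} := by
  classical
  intro X κ W A t l f h hkt hl hp
  have hκ0 : κ ≠ 0 := (aleph0_pos.trans h.unc).ne'
  obtain ⟨c, hcl, hc⟩ := h.rep.val Subset.rfl h.pos hkt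
  set B : Set X := {x ∈ A | f c x = κ.ord} with hB
  have hBA : B ⊆ A := fun x hx => hx.1
  have hex : ∀ x : X, ∃ code : Set κ.ord.ToType → Ordinal.{u}, (κ ≠ 0 → ∀ Y, code Y < κ.ord) ∧
      (f κ.ord x < κ.ord → ∀ Y Y', code Y = code Y' →
        ∀ a : κ.ord.ToType, ((a.toOrd : Ordinal.{u}) < f κ.ord x) → (a ∈ Y ↔ a ∈ Y')) :=
    fun x => code_exists κ hp (f κ.ord x)
  choose code hcode1 hcode2 using hex
  have hlt : ∀ x Y, code x Y < κ.ord := fun x Y => hcode1 x hκ0 Y
  have hval : ∀ Y : Set κ.ord.ToType, ∃ e : c.ToType,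
      Pos W {x ∈ B | code x Y = f (e.toOrd : Ordinal.{u}) x} := by
    intro Y
    obtain ⟨e, hel, he⟩ := h.rep.onto B hBA hc (fun x => code x Y)
      (fun x _ => (hlt x Y).trans hkt)
    have hec : e < c := by
      refine h.rep.lt_of_lt (B := {x ∈ B | code x Y = f e x}) (fun x hx => hBA hx.1) he hel ?_
      intro x hx
      rw [← hx.2, hx.1.2]
      exact hlt x Y
    refine ⟨ToType.mk ⟨e, hec⟩, ?_⟩
    simpa [ToType.toOrd] using he
  choose E hE using hval
  have hfib : ∀ e : c.ToType, #(E ⁻¹' {e}) ≤ ℵ₀ := by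
    intro e
    rw [Cardinal.le_aleph0_iff_set_countable]
    set F : Set κ.ord.ToType → Set X := fun Y => {x ∈ B | code x Y = f (e.toOrd : Ordinal.{u}) x}
      with hF
    have hpos : ∀ Y ∈ E ⁻¹' {e}, Pos W (F Y) := by
      intro Y hY
      have h1 := hE Y
      rw [show E Y = e from hY] at h1
      exact h1
    have key : ∀ Y Y' : Set κ.ord.ToType, Y ≠ Y' → ¬ Pos W (F Y ∩ F Y') := by
      intro Y Y' hne
      have h0 : ∃ a, ¬ (a ∈ Y ↔ a ∈ Y') := by
        by_contra hcon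
        push Not at hcon
        exact hne (Set.ext hcon)
      obtain ⟨a, ha⟩ := h0
      rw [not_pos]
      filter_upwards [h.k_lt, h.lt_k (a := (a.toOrd : Ordinal.{u})) a.toOrd.2] with x hx hx2 hx3
      have hxA : x ∈ A := hBA hx3.1.1
      exact ha (hcode2 x (hx hxA) Y Y' (hx3.1.2.trans hx3.2.2.symm) a (hx2 hxA))
    have hinj : InjOn F (E ⁻¹' {e}) := by
      intro Y hY Y' hY' hYY
      by_contra hne
      have h1 := key Y Y' hne
      rw [← hYY, inter_self] at h1
      exact h1 (hpos Y hY)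
    have hcnt : (F '' (E ⁻¹' {e})).Countable := by
      apply h.sat
      · rintro C ⟨Y, hY, rfl⟩
        exact hpos Y hY
      · rintro C ⟨Y, hY, rfl⟩ D ⟨Y', hY', rfl⟩ hCD
        exact key Y Y' (fun h => hCD (by rw [h]))
    exact countable_of_injective_of_countable_image hinj hcnt
  have h1 : #(Set κ.ord.ToType) ≤ #c.ToType * ℵ₀ := Cardinal.mk_le_mk_mul_of_mk_preimage_le E hfib
  rw [Cardinal.mk_set, mk_toType, card_ord, mk_toType] at h1
  refine h1.trans_lt ?_
  have hkl : κ < l.card := by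
    rw [← Cardinal.ord_lt_ord, show l.card.ord = l from hl]
    exact h.kl
  have hcl2 : c.card < l.card := by
    rw [← Cardinal.lt_ord, show l.card.ord = l from hl]
    exact hcl
  exact Cardinal.mul_lt_of_lt (h.unc.le.trans hkl.le) hcl2 (h.unc.trans hkl)

end Pool.Agent.Helper4.RV
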